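import Pool.Agent.H82.G4.Targets3
import Pool.Agent.H22.G4.BAS

/-!
# Row BASs of the board `g4_modules`: the trivial bound, strong form
-/

set_option autoImplicit false

namespace Pool.Agent.H33.G4

open MeasureTheory Set Pool.Agent.H83.G Pool.Agent.H82.G4
open scoped ENNReal NNReal RealInnerProductSpace

theorem pf_BASs (hSPK : T_SPK) (hSPW : T_SPW) (hPUX : T_PUX) (hPLN : T_PLN) : T_BASs := by
  intro m L x hm hx _hx4
  obtain ⟨C0, hC0⟩ := hSPW m 0 20 2 1 (by norm_num) (by norm_num)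
  obtain ⟨β, hβ⟩ := hPUX m
  obtain ⟨C1, hC1, hspk⟩ := hSPK m L β hβ
  have hx' : (m : ℝ) / 2 * x = 1 + (m * x / 2 - 1) := by ring
  refine ⟨(C0 : ℝ) * C1 ^ x + 1, by positivity, ?_⟩
  intro κ R hκ0 hκ hR A G hA hG
  have hI : 0 ≤ ∫ ζ, ‖G ζ‖ ^ 2 := integral_nonneg fun ζ => by positivity
  have hR0 : 0 < R := by linarith
  unfold SX
  refine iSup₂_le fun X hX => ?_
  have h1 := hC0 G X (fun _ => 1) hG.1
    (fun ζ hζ => Pool.Agent.H22.G4.BAS.norm_le_of_Rg hκ0 hκ hR (hG.2.1 ζ hζ)) hX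
    measurable_const (fun z z' => by simp)
  simp only [mul_one] at h1
  have h2 : ∫⁻ z, ‖TF G z‖ₑ ^ (2 : ℝ) = ENNReal.ofReal (∫ ζ, ‖G ζ‖ ^ 2) := by
    simp only [ENNReal.rpow_two]
    exact (hPLN m G hG.1).1
  rw [h2] at h1
  set B : ℝ := C1 * A * R ^ ((m : ℝ) / 2) with hB
  have hB0 : 0 < B := by positivity
  have h3 : ∀ z ∈ X, ‖TF G z‖ₑ ^ (2 + x) ≤ ENNReal.ofReal (B ^ x) * ‖TF G z‖ₑ ^ (2 : ℝ) := by
    intro z _
    rw [ENNReal.rpow_add_of_nonneg _ _ (by norm_num) hx.le, mul_comm]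
    refine mul_le_mul_left ?_ _
    rw [← ENNReal.ofReal_rpow_of_pos hB0, ← ofReal_norm]
    refine ENNReal.rpow_le_rpow (ENNReal.ofReal_le_ofReal ?_) hx.le
    exact (hspk κ R A G hκ0 hκ hR hA hG).2 z
  refine (Finset.sum_le_sum h3).trans ?_
  rw [← Finset.mul_sum]
  refine (mul_le_mul_right h1 _).trans ?_
  have h5 : (C0 : ℝ≥0∞) = ENNReal.ofReal (C0 : ℝ) := (ENNReal.ofReal_coe_nnreal).symm
  rw [h5, ← ENNReal.ofReal_mul C0.coe_nonneg, ← ENNReal.ofReal_mul (by positivity)]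
  refine ENNReal.ofReal_le_ofReal ?_
  have h6 : B ^ x = C1 ^ x * A ^ x * (R * R ^ (m * x / 2 - 1)) := by
    rw [hB, Real.mul_rpow (by positivity) (by positivity), Real.mul_rpow hC1.le hA.le,
      ← Real.rpow_mul hR0.le, hx', Real.rpow_add hR0, Real.rpow_one]
  rw [h6]
  calc C1 ^ x * A ^ x * (R * R ^ (m * x / 2 - 1)) * ((C0 : ℝ) * ∫ ζ, ‖G ζ‖ ^ 2)
      = ((C0 : ℝ) * C1 ^ x) * (R * A ^ x * R ^ (m * x / 2 - 1) * ∫ ζ, ‖G ζ‖ ^ 2) := by ring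
    _ ≤ ((C0 : ℝ) * C1 ^ x + 1) * (R * A ^ x * R ^ (m * x / 2 - 1) * ∫ ζ, ‖G ζ‖ ^ 2) := by
        refine mul_le_mul_of_nonneg_right (by linarith) (by positivity)
    _ = _ := by ring

end Pool.Agent.H33.G4
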